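import Pool.Agent.Q183.BD.Stmts

open MeasureTheory Filter Topology
open scoped ENNReal

namespace Pool.Agent.Q183.BD.Main

theorem data (hNK : TaskNK) (hE : TaskE) (p q : ℕ) (ha : Adm p q) (θ : ℝ) (h0 : 0 ≤ θ) (h1 : θ ≤ 1) :
    Nonempty (Data p q θ) := by
  obtain ⟨n, K, n0, nS, Klt, Klo, Khi, Knest⟩ := hNK q ha.1 θ h0 h1
  obtain ⟨E, E0, ES⟩ := hE p q ha.1 n n0 nS
    (fun k t' => if t' % q ^ n k ∈ K k then 0 else q * p ^ (n (k + 1) + t' + 2))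
  refine ⟨⟨n, K, E, n0, nS, Klt, Klo, Khi, Knest, E0, ?_⟩⟩
  intro k t b ht hb hb'
  rw [ES k t b ht hb hb']
  have : (t + q ^ n k * b) % q ^ n k = t := by
    rw [Nat.add_mul_mod_self_left, Nat.mod_eq_of_lt ht]
  simp only [this]

theorem Mpos (p q : ℕ) (ha : Adm p q) : 0 < Mpq p q := by
  obtain ⟨h2, hd, hlt⟩ := ha
  unfold Mpq
  apply Real.rpow_pos_of_pos
  have h2' : (2 : ℝ) ≤ q := by exact_mod_cast h2
  have h3 : (q : ℝ) < p := by exact_mod_cast hlt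
  apply div_pos <;> linarith

theorem final (hNK : TaskNK) (hE : TaskE) (hUp : TaskUp) (hLow : TaskLow) (hSum : TaskSumOne)
    (hStr : TaskStr) (p q : ℕ) (ha : Adm p q) (μ : Measure ℝ) [IsProbabilityMeasure μ]
    (hμ : SelfSim p q μ) (d : ℝ) (hd0 : 0 ≤ d) (hd1 : d ≤ Mpq p q) :
    ∃ Λ : Set ℝ, IsSpectrum μ Λ ∧ upperDensity (sdim p q) Λ = ENNReal.ofReal d := by
  have hM := Mpos p q ha
  have h0 : 0 ≤ d / Mpq p q := div_nonneg hd0 hM.le
  have h1 : d / Mpq p q ≤ 1 := (div_le_one hM).2 hd1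
  obtain ⟨D⟩ := data hNK hE p q ha (d / Mpq p q) h0 h1
  have hdd : d / Mpq p q * Mpq p q = d := div_mul_cancel₀ d hM.ne'
  refine ⟨Set.range fun t : ℕ => (D.E t : ℝ), hStr μ D.E (hSum p q ha μ hμ _ D), ?_⟩
  apply le_antisymm
  · have := hUp p q ha _ h0 h1 D
    rwa [hdd] at this
  · have := hLow p q ha _ h0 h1 D
    rwa [hdd] at this

end Pool.Agent.Q183.BD.Main
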