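import Mathlib

/-!
Blueprint for MP_5269d5_an: every value between 0 and M is the upper s-Beurling density
of a spectrum of the self-similar measure mu_{p,q}.
Standing hypothesis `Adm p q`: 2 ≤ q, q ∣ p, q < p (so p ≥ 2q ≥ 4).
-/

open MeasureTheory Filter Topology
open scoped ENNReal

namespace Pool.Agent.Q183.BD

def Adm (p q : ℕ) : Prop := 2 ≤ q ∧ q ∣ p ∧ q < p

/-- the digits of `t` in base `q` read in base `p` -/
def std (p q : ℕ) (t : ℕ) : ℕ := Nat.ofDigits p (Nat.digits q t)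

/-- the exponential `x ↦ exp (2 π i l x)` -/
noncomputable def ex (l x : ℝ) : ℂ := Complex.exp (((2 * Real.pi * (l * x) : ℝ) : ℂ) * Complex.I)

/-- D(y) = (1/q) ∑_{k<q} exp(2 π i y k / q) -/
noncomputable def D (q : ℕ) (y : ℝ) : ℂ :=
  ((q : ℂ))⁻¹ * ∑ k ∈ Finset.range q, ex y ((k : ℝ) / q)

noncomputable def P (p q n : ℕ) (y : ℝ) : ℂ :=
  ∏ j ∈ Finset.range n, D q (y / (p : ℝ) ^ j)

/-- Fourier transform of the measure -/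
noncomputable def FT (μ : Measure ℝ) (ξ : ℝ) : ℂ := ∫ x, ex ξ x ∂μ

/-- `μ = (1/q) ∑_{d ∈ D} μ ∘ f_d⁻¹`, `f_d (x) = (x + d)/p`, `D = (p/q) {0, …, q-1}` -/
def SelfSim (p q : ℕ) (μ : Measure ℝ) : Prop :=
  μ = ((q : ℝ≥0∞))⁻¹ • ∑ k ∈ Finset.range q,
    μ.map (fun x : ℝ => (x + (p : ℝ) / q * k) / p)

/-- `Λ` is a spectrum of `μ` -/
def IsSpectrum (μ : Measure ℝ) (Λ : Set ℝ) : Prop :=
  Λ.Countable ∧ ∃ b : HilbertBasis Λ ℂ (Lp ℂ 2 μ), ∀ l : Λ, (b l : ℝ → ℂ) =ᵐ[μ] ex (l : ℝ)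

/-- upper r-Beurling density -/
noncomputable def upperDensity (r : ℝ) (Λ : Set ℝ) : ℝ≥0∞ :=
  limsup (fun h : ℝ => ⨆ x : ℝ,
    (((Λ ∩ Set.Ioo (x - h) (x + h)).encard : ℕ∞) : ℝ≥0∞) / ENNReal.ofReal (h ^ r)) atTop

/-- `s = log q / log p` -/
noncomputable def sdim (p q : ℕ) : ℝ := Real.log q / Real.log p

noncomputable def Mpq (p q : ℕ) : ℝ := (2 * ((p : ℝ) - 1) / ((q : ℝ) - 1)) ^ sdim p q

/-- the construction: levels `n k`, kept sets `K k ⊆ [0, q^(n k))`, enumeration `E` -/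
structure Data (p q : ℕ) (θ : ℝ) where
  n : ℕ → ℕ
  K : ℕ → Finset ℕ
  E : ℕ → ℕ
  n0 : n 0 = 0
  nS : ∀ k, n (k + 1) = n k + q ^ n k + 6
  Klt : ∀ k, ∀ t ∈ K k, t < q ^ n k
  Klo : ∀ k, θ * (q : ℝ) ^ n k ≤ ((K k).card : ℝ)
  Khi : ∀ k, ((K k).card : ℝ) ≤ θ * (q : ℝ) ^ n k + 1
  Knest : ∀ k, ∀ t ∈ K (k + 1), t % q ^ n k ∈ K k
  E0 : E 0 = 0
  ES : ∀ k t b, t < q ^ n k → 1 ≤ b → b < q ^ (q ^ n k + 6) →
    E (t + q ^ n k * b) = E t + p ^ n k * std p q b +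
      (if t ∈ K k then 0 else q * p ^ (n (k + 1) + (t + q ^ n k * b) + 2))

/-! ### construction -/

/-- Levels and nested kept sets. Recursion: `n (k+1) = n k + q^(n k) + 6`; the number of
`t < q^(n (k+1))` with `t % q^(n k) ∈ K k` is `|K k| q^(n (k+1) - n k) ≥ θ q^(n (k+1))`, so one can
choose a subset `K (k+1)` of it with exactly `⌈θ q^(n(k+1))⌉` elements (`Finset.exists_subset_card_eq`).
`K 0 ⊆ {0}` with `⌈θ⌉` elements. About 60-80 lines. -/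
def TaskNK : Prop := ∀ q : ℕ, 2 ≤ q → ∀ θ : ℝ, 0 ≤ θ → θ ≤ 1 →
  ∃ (n : ℕ → ℕ) (K : ℕ → Finset ℕ), n 0 = 0 ∧ (∀ k, n (k + 1) = n k + q ^ n k + 6) ∧
    (∀ k, ∀ t ∈ K k, t < q ^ n k) ∧ (∀ k, θ * (q : ℝ) ^ n k ≤ ((K k).card : ℝ)) ∧
    (∀ k, ((K k).card : ℝ) ≤ θ * (q : ℝ) ^ n k + 1) ∧
    (∀ k, ∀ t ∈ K (k + 1), t % q ^ n k ∈ K k)

/-- The recursion for `E` (`g k t` = the extra summand). Hint: define `Ek : ℕ → ℕ → ℕ` by
`Ek 0 t = 0`, `Ek (k+1) t = if t < q^(n k) then Ek k t else Ek k (t % q^(n k)) + p^(n k) * std p q (t / q^(n k))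
+ g k t`, and `E t = Ek t t` (note `t < q^(n t)`; `Ek (k+1) t = Ek k t` for `t < q^(n k)`). About 50 lines. -/
def TaskE : Prop := ∀ (p q : ℕ), 2 ≤ q → ∀ (n : ℕ → ℕ), n 0 = 0 → (∀ k, n (k + 1) = n k + q ^ n k + 6) →
  ∀ g : ℕ → ℕ → ℕ, ∃ E : ℕ → ℕ, E 0 = 0 ∧ ∀ k t b, t < q ^ n k → 1 ≤ b → b < q ^ (q ^ n k + 6) →
    E (t + q ^ n k * b) = E t + p ^ n k * std p q b + g k (t + q ^ n k * b)

/-! ### the standard set -/

/-- (a) `std (t + q^n b) = std t + p^n std b` for `t < q^n`; (b) `std b = b` for `b < q`;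
(c) strictly monotone; (d), (e) size. Induction on `n` with `Nat.digits_add_two_add_one`/`Nat.digits_def'`:
first prove `std (q a + r) = p std a + r` for `r < q`. About 60-80 lines. -/
def TaskStd : Prop := ∀ p q : ℕ, Adm p q →
  (∀ n t b, t < q ^ n → std p q (t + q ^ n * b) = std p q t + p ^ n * std p q b) ∧
  (∀ b, b < q → std p q b = b) ∧ (StrictMono (std p q)) ∧
  (∀ n t, t < q ^ n → (std p q t : ℝ) * ((p : ℝ) - 1) ≤ ((q : ℝ) - 1) * ((p : ℝ) ^ n - 1)) ∧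
  (∀ n t, t < q ^ n → 2 * std p q t < p ^ n) ∧
  (∀ a r, r < q → std p q (q * a + r) = p * std p q a + r)

/-- Chords of a convex function: on `[1, ∞)`, `x ^ α` (`α ≥ 1`), the chord over `[x, x+u]` with `x ≥ 1`,
`x + u ≥ q` is at least as steep as the chord over `[1, q]` (`ConvexOn.slope_mono_adjacent`,
`ConvexOn.secant_mono`; `convexOn_rpow`). About 30 lines. -/
def TaskChord : Prop := ∀ (α Q x u : ℝ), 1 ≤ α → 1 < Q → 1 ≤ x → 0 ≤ u → Q ≤ x + u →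
  (Q ^ α - 1) / (Q - 1) * u ≤ (x + u) ^ α - x ^ α

/-- Uses TaskChord, TaskStd. Induction on `t'` by digits: `t = q a + r`, `t' = q a' + r'`, and with
`A = a' - a`, `δ = r' - r`, `N = t' - t = q A + δ ≥ 0` apply TaskChord with `Q = q`, `α = log p/log q`
(`q ^ α = p`), `x = q A + δ + 1`, `u = q - 1 - δ`; `(q (A + 1))^α = p (A+1)^α`. About 80 lines. -/
def TaskGap : Prop := ∀ p q : ℕ, Adm p q → ∀ t t' : ℕ, t ≤ t' →
  ((t' : ℝ) - t + 1) ^ (Real.log p / Real.log q) ≤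
    1 + ((std p q t' : ℝ) - std p q t) * (((p : ℝ) - 1) / ((q : ℝ) - 1))

/-- Uses TaskGap: `T ⊆ [min T, max T]`, so `|T| ≤ max - min + 1`; raise TaskGap to the power `sdim p q`
(`(log p/log q) * sdim p q = 1`). About 40 lines. -/
def TaskCount : Prop := ∀ p q : ℕ, Adm p q → ∀ (T : Finset ℕ) (x l : ℝ), 0 ≤ l →
  (∀ t ∈ T, x ≤ (std p q t : ℝ) ∧ (std p q t : ℝ) ≤ x + l) →
  (T.card : ℝ) ≤ (1 + l * (((p : ℝ) - 1) / ((q : ℝ) - 1))) ^ sdim p q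

/-! ### the mask -/

/-- Periodicity, bound, nonvanishing (geometric sum: `D q y = 0` forces `exp(2πi y) = 1`, so `y ∈ ℤ`,
so `y = 0` when `|y| < 1`, but `D q 0 = 1`). About 50 lines. -/
def TaskDa : Prop := ∀ q : ℕ, 2 ≤ q →
  (∀ (y : ℝ) (z : ℤ), D q (y + q * z) = D q y) ∧ (∀ y, ‖D q y‖ ≤ 1) ∧
  (∀ y : ℝ, |y| < 1 → D q y ≠ 0) ∧ D q 0 = 1

/-- Parseval for the cyclic group: expand the square,
`∑_b ex (b) ((k-k')/q) = 0` for `k ≠ k'` in `[0,q)`. About 50-60 lines. -/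
def TaskDd : Prop := ∀ q : ℕ, 2 ≤ q → ∀ y : ℝ, ∑ b ∈ Finset.range q, ‖D q (y + b)‖ ^ 2 = 1

/-- Uses TaskDa. Products: additivity, periods (`q ∣ p`), bound. About 40 lines. -/
def TaskP : Prop := ∀ p q : ℕ, Adm p q →
  (∀ n m (y : ℝ), P p q (n + m) y = P p q n y * P p q m (y / (p : ℝ) ^ n)) ∧
  (∀ n (y : ℝ) (z : ℤ), P p q n (y + (p : ℝ) ^ n * z) = P p q n y) ∧
  (∀ n (y : ℝ) (z : ℤ), P p q (n + 1) (y + q * (p : ℝ) ^ n * z) = P p q (n + 1) y) ∧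
  (∀ n (y : ℝ), ‖P p q n y‖ ≤ 1)

/-- Uses TaskDd, TaskP, TaskStd. Induction on `m`: `b = b₀ + q^m b₁`, `std b = std b₀ + p^m b₁`,
`P (m+1) (y + std b) = P m (y + std b₀) * D ((y + std b₀)/p^m + b₁)`. About 50 lines. -/
def TaskPsum : Prop := ∀ p q : ℕ, Adm p q → ∀ (m : ℕ) (y : ℝ),
  ∑ b ∈ Finset.range (q ^ m), ‖P p q m (y + (std p q b : ℝ))‖ ^ 2 = 1

/-- Uses TaskPsum, TaskP, TaskStd. Induction on `k`: `t = t₀ + q^(n k) b`,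
`P (n (k+1)) (ξ + E t) = P (n k) (ξ + E t₀) * P (q^(n k)+6) ((ξ + E t₀)/p^(n k) + std b)` since the extra
summand is an integer multiple of `p^(n (k+1))`. (for `b = 0`, `std 0 = 0`.) About 60 lines. -/
def TaskLevel : Prop := ∀ p q : ℕ, Adm p q → ∀ (θ : ℝ) (d : Data p q θ) (k : ℕ) (ξ : ℝ),
  ∑ t ∈ Finset.range (q ^ d.n k), ‖P p q (d.n k) (ξ + (d.E t : ℝ))‖ ^ 2 = 1

/-! ### structure of E -/

/-- Uses TaskStd. Induction on `k`. About 40 lines. -/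
def TaskEbound : Prop := ∀ p q : ℕ, Adm p q → ∀ (θ : ℝ) (d : Data p q θ) (k t : ℕ),
  t < q ^ d.n k → d.E t < p ^ (d.n k + q ^ d.n k + 3)

/-- Uses TaskEbound, TaskStd (`p ≥ 4`; `p^(n k + q^(n k)+3) = p^(n (k+1) - 3)`). About 40 lines. -/
def TaskEform : Prop := ∀ p q : ℕ, Adm p q → ∀ (θ : ℝ) (d : Data p q θ) (k t : ℕ),
  t < q ^ d.n (k + 1) → ∃ x L : ℕ, 8 * x ≤ 5 * p ^ d.n (k + 1) ∧
    (d.E t = x ∨ d.E t = x + q * p ^ (d.n (k + 1) + L))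

/-- Uses TaskStd. (a) `E = std` on `K k` (induction on `k`, `Knest`); (b) on its translates;
(c) `n` is increasing. About 40-50 lines. -/
def TaskKept : Prop := ∀ p q : ℕ, Adm p q → ∀ (θ : ℝ) (d : Data p q θ),
  (∀ k, ∀ t ∈ d.K k, d.E t = std p q t) ∧
  (∀ k, ∀ t ∈ d.K k, ∀ b < q ^ (q ^ d.n k + 6), d.E (t + q ^ d.n k * b) = std p q (t + q ^ d.n k * b))

/-- `t` is a sparse index -/
def Sparse (p q : ℕ) {θ : ℝ} (d : Data p q θ) (t : ℕ) : Prop :=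
  ∃ j, q ^ d.n j ≤ t ∧ t < q ^ d.n (j + 1) ∧ q * p ^ (d.n (j + 1) + t + 2) ≤ d.E t ∧
    d.E t < q * p ^ (d.n (j + 1) + t + 2) + p ^ d.n (j + 1)

/-- Uses TaskKept, TaskEbound, TaskStd. For `t ≥ q^(n k)` let `j ≥ k` be the level with
`q^(n j) ≤ t < q^(n (j+1))`, `t = t₀ + q^(n j) b`; if `t₀ ∈ K j` then `E t = std t` and by `Knest`
(repeated) `t % q^(n k) ∈ K k`; otherwise `t` is sparse. About 60-80 lines. -/
def TaskDich : Prop := ∀ p q : ℕ, Adm p q → ∀ (θ : ℝ) (d : Data p q θ) (k t : ℕ),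
  q ^ d.n k ≤ t → (t % q ^ d.n k ∈ d.K k ∧ d.E t = std p q t) ∨ Sparse p q d t

/-- For sparse `t < t'`: `E t' - E t ≥ p^t'`. So in a window of length `l`, with largest index `t'` and
at least two elements, `p^t' ≤ l`, and `|T| ≤ t' + 1`. About 60 lines. -/
def TaskSparse : Prop := ∀ p q : ℕ, Adm p q → ∀ (θ : ℝ) (d : Data p q θ) (T : Finset ℕ) (x l : ℝ),
  1 ≤ l → (∀ t ∈ T, Sparse p q d t ∧ x ≤ (d.E t : ℝ) ∧ (d.E t : ℝ) ≤ x + l) →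
  (T.card : ℝ) ≤ 2 + Real.log l / Real.log p

/-- Uses TaskDich, TaskSparse, TaskCount, TaskStd: split `T` into `t < q^(n k)`, sparse, and the rest;
for the rest `t = t₀ + q^(n k) b`, `t₀ ∈ K k`, `E t = std t₀ + p^(n k) std b`; for each `t₀` apply
TaskCount to the window of length `l / p^(n k)`. About 80 lines. -/
def TaskWindow : Prop := ∀ p q : ℕ, Adm p q → ∀ (θ : ℝ) (d : Data p q θ) (k : ℕ) (T : Finset ℕ)
  (x l : ℝ), 1 ≤ l → (∀ t ∈ T, x ≤ (d.E t : ℝ) ∧ (d.E t : ℝ) ≤ x + l) →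
  (T.card : ℝ) ≤ (q : ℝ) ^ d.n k +
    (d.K k).card * (1 + l / (p : ℝ) ^ d.n k * (((p : ℝ) - 1) / ((q : ℝ) - 1))) ^ sdim p q +
    2 + Real.log l / Real.log p

/-- Pure analysis: the bound of TaskWindow with `l = 2h`, `k` such that `p^(n (k+1)) ≤ l < p^(n (k+2))`,
divided by `h^s`, is eventually `≤ θ M + ε`. Here `k(h) → ∞` and `p^(n k) / l → 0`,
`q^(n k) = (p^(n k))^s`. About 100 lines. -/
def TaskAsym : Prop := ∀ p q : ℕ, Adm p q → ∀ (θ : ℝ), 0 ≤ θ → θ ≤ 1 → ∀ (d : Data p q θ) (ε : ℝ), 0 < ε →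
  ∃ h0 : ℝ, 1 ≤ h0 ∧ ∀ h : ℝ, h0 ≤ h → ∃ k : ℕ,
    (q : ℝ) ^ d.n k +
      (d.K k).card * (1 + (2 * h) / (p : ℝ) ^ d.n k * (((p : ℝ) - 1) / ((q : ℝ) - 1))) ^ sdim p q +
      2 + Real.log (2 * h) / Real.log p ≤ (θ * Mpq p q + ε) * h ^ sdim p q

/-- Uses TaskWindow, TaskAsym. `encard (range E ∩ I) ≤` any bound for the finsets
`T` with `E t ∈ I` (a set all of whose finite subsets have at most `N` elements is finite...). About 60 lines. -/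
def TaskUp : Prop := ∀ p q : ℕ, Adm p q → ∀ (θ : ℝ), 0 ≤ θ → θ ≤ 1 → ∀ (d : Data p q θ),
  upperDensity (sdim p q) (Set.range fun t : ℕ => (d.E t : ℝ)) ≤ ENNReal.ofReal (θ * Mpq p q)

/-- Uses TaskKept, TaskStd. For `h > h_k := (q-1) p^(n (k+1)) / (2 (p-1))` the window around
`(q-1)(p^(n(k+1)) - 1)/(2(p-1))` of radius `h_k` contains the `≥ θ q^(n (k+1))` points
`std (t₀ + q^(n k) b)`, `t₀ ∈ K k`, and `q^(n (k+1)) = M h_k^s`, so the quotient at `h_k` is `≥ θ M`;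
`h_k → ∞`, so limsup `≥ θ M` (`Filter.le_limsup_of_frequently_le`). About 80 lines. -/
def TaskLow : Prop := ∀ p q : ℕ, Adm p q → ∀ (θ : ℝ), 0 ≤ θ → θ ≤ 1 → ∀ (d : Data p q θ),
  ENNReal.ofReal (θ * Mpq p q) ≤ upperDensity (sdim p q) (Set.range fun t : ℕ => (d.E t : ℝ))

/-! ### the measure -/

/-- Fourier transform of a self-similar measure. About 50-60 lines. -/
def TaskFT : Prop := ∀ p q : ℕ, Adm p q → ∀ (μ : Measure ℝ) [IsProbabilityMeasure μ],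
  (FT μ 0 = 1 ∧ Continuous (FT μ) ∧ (∀ y, ‖FT μ y‖ ≤ 1)) ∧
  (SelfSim p q μ → ∀ y, FT μ y = D q y * FT μ (y / p))

/-- Uses TaskFT, TaskP, TaskDa. (a) iteration; (b) convergence `P n y → FT y`; (c) lower bound on
`[-3/4, 3/4]` (compactness, nonvanishing of each factor). About 60 lines. -/
def TaskFlow : Prop := ∀ p q : ℕ, Adm p q → ∀ (μ : Measure ℝ) [IsProbabilityMeasure μ], SelfSim p q μ →
  (∀ n y, FT μ y = P p q n y * FT μ (y / (p : ℝ) ^ n)) ∧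
  (∀ y, Tendsto (fun n => P p q n y) atTop (𝓝 (FT μ y))) ∧
  (∃ c : ℝ, 0 < c ∧ c ≤ 1 ∧ ∀ y, |y| ≤ 3 / 4 → c ≤ ‖FT μ y‖)

/-- Uses TaskFlow, TaskP, TaskFT. `F (x + q p^L) = P (L+1) (x + q p^L) F (x/p^(L+1) + q/p)
= P (L+1) (x) F (x/p^(L+1) + q/p)`, `|P (L+1) x| ≥ |F x| ≥ c`, `q/p ≤ 1/2`, `p ≥ 4`. About 40 lines. -/
def TaskShift : Prop := ∀ p q : ℕ, Adm p q → ∀ (μ : Measure ℝ) [IsProbabilityMeasure μ], SelfSim p q μ →
  ∃ c : ℝ, 0 < c ∧ c ≤ 1 ∧ (∀ y, |y| ≤ 3 / 4 → c ≤ ‖FT μ y‖) ∧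
    (∀ y (L : ℕ), |y| ≤ 3 / 4 → c ≤ ‖FT μ (y + q * (p : ℝ) ^ L)‖)

/-- Abstract dominated convergence. About 40-50 lines (`tendsto_tsum_of_dominated_convergence` with
bound `c⁻¹ f`, after `Summable f` from `∑_{t<a k} f t ≤ 1`). -/
def TaskDCT : Prop := ∀ (f : ℕ → ℝ) (g : ℕ → ℕ → ℝ) (a : ℕ → ℕ) (c : ℝ), 0 < c → (∀ t, 0 ≤ f t) →
  (∀ k t, 0 ≤ g k t) → Tendsto a atTop atTop → (∀ k, ∑ t ∈ Finset.range (a k), g k t = 1) →
  (∀ t, Tendsto (fun k => g k t) atTop (𝓝 (f t))) → (∀ k, ∀ t < a k, f t ≤ g k t) →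
  (∃ k0, ∀ k, k0 ≤ k → ∀ t < a k, c * g k t ≤ f t) → HasSum f 1

/-- Uses TaskDCT, TaskLevel, TaskEform, TaskFlow, TaskShift, TaskFT. With `g k t = ‖P (n k) (ξ + E t)‖²`,
`f t = ‖FT (ξ + E t)‖² = g k t * ‖FT ((ξ + E t)/p^(n k))‖²`, and for `k ≥ 1` large
`|ξ| ≤ p^(n k) / 16`, so TaskShift applies. About 70 lines. -/
def TaskSumOne : Prop := ∀ p q : ℕ, Adm p q → ∀ (μ : Measure ℝ) [IsProbabilityMeasure μ],
  SelfSim p q μ → ∀ (θ : ℝ) (d : Data p q θ) (ξ : ℝ),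
  HasSum (fun t : ℕ => ‖FT μ (ξ + (d.E t : ℝ))‖ ^ 2) 1

/-- The exponentials are total in `L²(μ)`: real and imaginary parts; for real `f`, the finite measures
`f⁺ μ`, `f⁻ μ` have the same characteristic function (`Measure.ext_of_charFun`). About 80 lines. -/
def TaskTotal : Prop := ∀ (μ : Measure ℝ) [IsProbabilityMeasure μ] (f : ℝ → ℂ), MemLp f 2 μ →
  (∀ ξ : ℝ, ∫ x, ex ξ x * f x ∂μ = 0) → f =ᵐ[μ] 0

/-- Uses TaskTotal, TaskFT. At `ξ = -E t₀` the term `t₀` is `1`, so `FT (E t - E t₀) = 0` for `t ≠ t₀`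
(in particular `E` is injective): orthonormal. For every `ξ`, `∑_t |⟪e_{E t}, e_{-ξ}⟫|² = 1 = ‖e_{-ξ}‖²`, so
a vector orthogonal to all `e_{E t}` is orthogonal to all `e_ξ` (Bessel applied to the orthonormal family),
so it is 0 by TaskTotal; `HilbertBasis.mkOfOrthogonalEqBot`. About 100 lines. -/
def TaskStr : Prop := ∀ (μ : Measure ℝ) [IsProbabilityMeasure μ] (E : ℕ → ℕ),
  (∀ ξ : ℝ, HasSum (fun t : ℕ => ‖FT μ (ξ + (E t : ℝ))‖ ^ 2) 1) →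
  IsSpectrum μ (Set.range fun t : ℕ => (E t : ℝ))

end Pool.Agent.Q183.BD
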