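import Pool.Agent.Q183.BD.Stmts

set_option autoImplicit false

namespace Pool.Agent.Q183.BD.TCount

open Pool.Agent.Q183.BD

theorem main (hGap : TaskGap) (_hStd : TaskStd) : TaskCount := by
  intro p q hpq T x l hl hT
  obtain ⟨hq2, _, hqp⟩ := hpq
  have hq1 : (1 : ℝ) < q := by exact_mod_cast (by omega : 1 < q)
  have hp1 : (1 : ℝ) < p := by exact_mod_cast (by omega : 1 < p)
  have hlq : 0 < Real.log q := Real.log_pos hq1
  have hlp : 0 < Real.log p := Real.log_pos hp1
  have hc : (0 : ℝ) ≤ ((p : ℝ) - 1) / ((q : ℝ) - 1) := div_nonneg (by linarith) (by linarith)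
  have hs : 0 ≤ sdim p q := by
    unfold sdim
    exact div_nonneg hlq.le hlp.le
  rcases T.eq_empty_or_nonempty with hE | hne
  · subst hE
    simp only [Finset.card_empty, Nat.cast_zero]
    exact Real.rpow_nonneg (by positivity) _
  · set t0 := T.min' hne with ht0
    set t1 := T.max' hne with ht1
    have h01 : t0 ≤ t1 := T.min'_le_max' hne
    have hm0 : t0 ∈ T := T.min'_mem hne
    have hm1 : t1 ∈ T := T.max'_mem hne
    have hsub : T ⊆ Finset.Icc t0 t1 := by
      intro t ht
      exact Finset.mem_Icc.mpr ⟨T.min'_le t ht, T.le_max' t ht⟩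
    have hcard := Finset.card_le_card hsub
    rw [Nat.card_Icc] at hcard
    have hcard' : (T.card : ℝ) ≤ (t1 : ℝ) - t0 + 1 := by
      have h1 : (T.card : ℝ) ≤ ((t1 + 1 - t0 : ℕ) : ℝ) := by exact_mod_cast hcard
      rw [Nat.cast_sub (by omega)] at h1
      push_cast at h1
      linarith
    have hgap := hGap p q ⟨hq2, by assumption, hqp⟩ t0 t1 h01
    have h2 : ((t1 : ℝ) - t0 + 1) ^ (Real.log p / Real.log q) ≤
        1 + l * (((p : ℝ) - 1) / ((q : ℝ) - 1)) := by
      refine hgap.trans ?_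
      have h3 : (std p q t1 : ℝ) - std p q t0 ≤ l := by
        have := (hT t0 hm0).1
        have := (hT t1 hm1).2
        linarith
      have := mul_le_mul_of_nonneg_right h3 hc
      linarith
    have hN : (0 : ℝ) ≤ (t1 : ℝ) - t0 + 1 := by
      have : (t0 : ℝ) ≤ t1 := by exact_mod_cast h01
      linarith
    have h4 : (((t1 : ℝ) - t0 + 1) ^ (Real.log p / Real.log q)) ^ sdim p q =
        (t1 : ℝ) - t0 + 1 := by
      rw [← Real.rpow_mul hN]
      have : Real.log p / Real.log q * sdim p q = 1 := by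
        unfold sdim
        field_simp
      rw [this, Real.rpow_one]
    calc (T.card : ℝ) ≤ (t1 : ℝ) - t0 + 1 := hcard'
      _ = (((t1 : ℝ) - t0 + 1) ^ (Real.log p / Real.log q)) ^ sdim p q := h4.symm
      _ ≤ (1 + l * (((p : ℝ) - 1) / ((q : ℝ) - 1))) ^ sdim p q :=
        Real.rpow_le_rpow (Real.rpow_nonneg hN _) h2 hs

end Pool.Agent.Q183.BD.TCount
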