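import Pool.Agent.Q183.BD.Stmts

open MeasureTheory Filter Topology
open scoped ENNReal

namespace Pool.Agent.Q183.BD.TDCT

theorem main : TaskDCT := by
  intro f g a c hc hf0 hg0 ha hsum hlim hle hge
  have hfs : Summable f := by
    refine summable_of_sum_range_le (c := 1) hf0 ?_
    intro n
    obtain ⟨k, hk⟩ := (ha.eventually_ge_atTop n).exists
    calc ∑ t ∈ Finset.range n, f t ≤ ∑ t ∈ Finset.range (a k), f t := by
          refine Finset.sum_le_sum_of_subset_of_nonneg ?_ (fun t _ _ => hf0 t)
          intro x hx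
          simp only [Finset.mem_range] at hx ⊢
          omega
      _ ≤ ∑ t ∈ Finset.range (a k), g k t :=
          Finset.sum_le_sum (fun t ht => hle k t (Finset.mem_range.1 ht))
      _ = 1 := hsum k
  obtain ⟨k0, hk0⟩ := hge
  set G : ℕ → ℕ → ℝ := fun k t => if t < a k then g k t else 0 with hG
  have hb : ∀ᶠ k in atTop, ∀ t, ‖G k t‖ ≤ c⁻¹ * f t := by
    filter_upwards [eventually_ge_atTop k0] with k hk t
    simp only [hG]
    split_ifs with h
    · rw [Real.norm_of_nonneg (hg0 k t)]
      have h1 := hk0 k hk t h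
      rw [inv_mul_eq_div, le_div_iff₀ hc]
      linarith
    · rw [norm_zero]
      exact mul_nonneg (inv_nonneg.2 hc.le) (hf0 t)
  have hpt : ∀ t, Tendsto (fun k => G k t) atTop (𝓝 (f t)) := by
    intro t
    refine (hlim t).congr' ?_
    filter_upwards [ha.eventually_gt_atTop t] with k hk
    simp only [hG, if_pos hk]
  have hT : Tendsto (fun k => ∑' t, G k t) atTop (𝓝 (∑' t, f t)) :=
    tendsto_tsum_of_dominated_convergence (hfs.mul_left c⁻¹) hpt hb
  have hG1 : ∀ k, ∑' t, G k t = 1 := by
    intro k
    rw [tsum_eq_sum (s := Finset.range (a k))]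
    · rw [← hsum k]
      refine Finset.sum_congr rfl ?_
      intro t ht
      simp only [hG, if_pos (Finset.mem_range.1 ht)]
    · intro t ht
      simp only [hG]
      rw [if_neg]
      intro h
      exact ht (Finset.mem_range.2 h)
  have h1 : ∑' t, f t = 1 := by
    have h2 : (fun k => ∑' t, G k t) = fun _ => (1 : ℝ) := by
      funext k
      exact hG1 k
    rw [h2] at hT
    exact tendsto_nhds_unique hT tendsto_const_nhds
  rw [← h1]
  exact hfs.hasSum

end Pool.Agent.Q183.BD.TDCT
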