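import Pool.Agent.Q183.BD.Stmts

set_option autoImplicit false

open MeasureTheory Filter Topology
open scoped ENNReal

namespace Pool.Agent.Q183.BD.TFlow

open Pool.Agent.Q183.BD

theorem main (hFT : TaskFT) (hDa : TaskDa) : TaskFlow := by
  intro p q hA μ _ hS
  obtain ⟨⟨h0, hcont, _⟩, hrec⟩ := hFT p q hA μ
  have hrec := hrec hS
  obtain ⟨_, _, hne, _⟩ := hDa q hA.1
  have hp : 2 ≤ p := by have := hA.1; have := hA.2.2; omega
  have hp1 : (1 : ℝ) < p := by exact_mod_cast (by omega : 1 < p)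
  have ha : ∀ n y, FT μ y = P p q n y * FT μ (y / (p : ℝ) ^ n) := by
    intro n
    induction n with
    | zero => intro y; simp [P]
    | succ n ih =>
      intro y
      rw [ih y, hrec (y / (p : ℝ) ^ n)]
      unfold P
      rw [Finset.prod_range_succ, mul_assoc, pow_succ, div_div]
  have hlim : ∀ y, Tendsto (fun n : ℕ => FT μ (y / (p : ℝ) ^ n)) atTop (𝓝 1) := by
    intro y
    have h1 : Tendsto (fun n : ℕ => y / (p : ℝ) ^ n) atTop (𝓝 0) :=
      Tendsto.const_div_atTop (tendsto_pow_atTop_atTop_of_one_lt hp1) y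
    have h2 := (hcont.tendsto 0).comp h1
    rw [h0] at h2
    exact h2
  have hev : ∀ y, ∀ᶠ n : ℕ in atTop, FT μ (y / (p : ℝ) ^ n) ≠ 0 := by
    intro y
    exact (hlim y).eventually_ne one_ne_zero
  refine ⟨ha, ?_, ?_⟩
  · intro y
    have h1 : Tendsto (fun n : ℕ => FT μ y / FT μ (y / (p : ℝ) ^ n)) atTop (𝓝 (FT μ y / 1)) :=
      tendsto_const_nhds.div (hlim y) one_ne_zero
    rw [div_one] at h1
    refine h1.congr' ?_
    filter_upwards [hev y] with n hn
    rw [ha n y, mul_div_assoc, div_self hn, mul_one]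
  · have hnz : ∀ y : ℝ, |y| ≤ 3 / 4 → FT μ y ≠ 0 := by
      intro y hy
      obtain ⟨n, hn⟩ := (hev y).exists
      rw [ha n y]
      refine mul_ne_zero ?_ hn
      unfold P
      rw [Finset.prod_ne_zero_iff]
      intro j _
      apply hne
      rw [abs_div, abs_of_pos (by positivity : (0 : ℝ) < (p : ℝ) ^ j)]
      have h1 : (1 : ℝ) ≤ (p : ℝ) ^ j := one_le_pow₀ hp1.le
      calc |y| / (p : ℝ) ^ j ≤ |y| := div_le_self (abs_nonneg y) h1
        _ < 1 := by linarith
    have hcomp : IsCompact (Set.Icc (-(3 / 4) : ℝ) (3 / 4)) := isCompact_Icc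
    obtain ⟨y0, hy0, hmin⟩ := hcomp.exists_isMinOn ⟨0, by norm_num, by norm_num⟩
      (f := fun y => ‖FT μ y‖) (hcont.norm.continuousOn)
    refine ⟨‖FT μ y0‖, norm_pos_iff.mpr (hnz y0 (abs_le.mpr hy0)), ?_, ?_⟩
    · have := hmin (show (0 : ℝ) ∈ Set.Icc (-(3 / 4) : ℝ) (3 / 4) by constructor <;> norm_num)
      simp only [Set.mem_ofPred_eq] at this
      rw [h0] at this
      simpa using this
    · intro y hy
      exact hmin (abs_le.mp hy)

end Pool.Agent.Q183.BD.TFlow
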