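import Pool.Agent.Q183.BD.Stmts

open MeasureTheory Filter Topology
open scoped ENNReal

namespace Pool.Agent.Q183.BD.TGap

theorem main (hC : TaskChord) (hS : TaskStd) : TaskGap := by
  intro p q hpq t t' htt
  obtain ⟨-, -, -, -, -, hrec⟩ := hS p q hpq
  obtain ⟨hq2, -, hlt⟩ := hpq
  have hq1 : (1 : ℝ) < q := by exact_mod_cast (by omega : 1 < q)
  have hp1 : (1 : ℝ) < p := by exact_mod_cast (by omega : 1 < p)
  have hqp : (q : ℝ) < p := by exact_mod_cast hlt
  have hlq : 0 < Real.log q := Real.log_pos hq1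
  set α : ℝ := Real.log p / Real.log q with hα
  set c : ℝ := ((p : ℝ) - 1) / ((q : ℝ) - 1) with hc
  have hα1 : 1 ≤ α := by
    rw [hα, le_div_iff₀ hlq, one_mul]
    exact Real.log_le_log (by linarith) hqp.le
  have hqα : (q : ℝ) ^ α = p := by
    rw [Real.rpow_def_of_pos (by linarith), hα, mul_div_cancel₀ _ hlq.ne', Real.exp_log (by linarith)]
  have hcq : c * ((q : ℝ) - 1) = p - 1 := by
    rw [hc]
    field_simp [sub_ne_zero.2 hq1.ne']
  induction t' using Nat.strong_induction_on generalizing t with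
  | _ t' ih =>
    rcases Nat.eq_or_lt_of_le htt with h | h
    · subst h
      simp
    · have ht0 : 0 < t' := by omega
      have ha' : t' / q < t' := Nat.div_lt_self ht0 (by omega)
      have haa : t / q ≤ t' / q := Nat.div_le_div_right htt
      have hIH := ih (t' / q) ha' (t / q) haa
      have hr : t % q < q := Nat.mod_lt _ (by omega)
      have hr' : t' % q < q := Nat.mod_lt _ (by omega)
      have e1 := hrec (t / q) (t % q) hr
      have e2 := hrec (t' / q) (t' % q) hr'
      rw [Nat.div_add_mod] at e1 e2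
      have e3 : (t : ℝ) = q * ((t / q : ℕ) : ℝ) + ((t % q : ℕ) : ℝ) := by
        exact_mod_cast (Nat.div_add_mod t q).symm
      have e4 : (t' : ℝ) = q * ((t' / q : ℕ) : ℝ) + ((t' % q : ℕ) : ℝ) := by
        exact_mod_cast (Nat.div_add_mod t' q).symm
      have e5 : (std p q t : ℝ) = p * (std p q (t / q) : ℝ) + ((t % q : ℕ) : ℝ) := by
        exact_mod_cast e1
      have e6 : (std p q t' : ℝ) = p * (std p q (t' / q) : ℝ) + ((t' % q : ℕ) : ℝ) := by
        exact_mod_cast e2
      have htR : (t : ℝ) ≤ t' := by exact_mod_cast htt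
      have hAR : ((t / q : ℕ) : ℝ) ≤ ((t' / q : ℕ) : ℝ) := by exact_mod_cast haa
      have hr0 : (0 : ℝ) ≤ ((t % q : ℕ) : ℝ) := Nat.cast_nonneg _
      have hr1 : ((t' % q : ℕ) : ℝ) ≤ q - 1 := by
        have : (((t' % q : ℕ) : ℝ)) + 1 ≤ q := by exact_mod_cast hr'
        linarith
      generalize ((t / q : ℕ) : ℝ) = a at *
      generalize ((t' / q : ℕ) : ℝ) = a' at *
      generalize ((t % q : ℕ) : ℝ) = r at *
      generalize ((t' % q : ℕ) : ℝ) = r' at *
      generalize (std p q (t / q) : ℝ) = s at *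
      generalize (std p q (t' / q) : ℝ) = s' at *
      have hx1 : 1 ≤ (t' : ℝ) - t + 1 := by linarith
      have hu : 0 ≤ (q : ℝ) - 1 - (r' - r) := by linarith
      have hsum : (t' : ℝ) - t + 1 + ((q : ℝ) - 1 - (r' - r)) = q * (a' - a + 1) := by
        rw [e3, e4]; ring
      have hQ : (q : ℝ) ≤ (t' : ℝ) - t + 1 + ((q : ℝ) - 1 - (r' - r)) := by
        rw [hsum]
        nlinarith
      have hch := hC α q _ _ hα1 hq1 hx1 hu hQ
      rw [hsum, Real.mul_rpow (by linarith) (by linarith), hqα] at hch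
      rw [← hc] at hch
      have hfin : (p : ℝ) * (a' - a + 1) ^ α ≤ p * (1 + (s' - s) * c) :=
        mul_le_mul_of_nonneg_left hIH (by linarith)
      have e7 : c * ((q : ℝ) - 1 - (r' - r)) = (p - 1) - c * (r' - r) := by
        rw [mul_sub, hcq]
      rw [e7] at hch
      rw [e5, e6]
      nlinarith
end Pool.Agent.Q183.BD.TGap
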