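import Pool.Agent.Q183.BD.Stmts

open MeasureTheory Filter Topology
open scoped ENNReal

namespace Pool.Agent.Q183.BD.TKept

open Pool.Agent.Q183.BD

theorem key (h1 : TaskStd) (p q : ℕ) (hpq : Adm p q) (θ : ℝ) (d : Data p q θ) (k t b : ℕ)
    (ht : t ∈ d.K k) (hE : d.E t = std p q t) (hb : b < q ^ (q ^ d.n k + 6)) :
    d.E (t + q ^ d.n k * b) = std p q (t + q ^ d.n k * b) := by
  have hlt := d.Klt k t ht
  rcases Nat.eq_zero_or_pos b with h0 | h0
  · subst h0
    simpa using hE
  · rw [d.ES k t b hlt h0 hb, if_pos ht, hE, (h1 p q hpq).1 (d.n k) t b hlt]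
    simp

theorem main (h1 : TaskStd) : TaskKept := by
  intro p q hpq θ d
  have hA : ∀ k, ∀ t ∈ d.K k, d.E t = std p q t := by
    intro k
    induction k with
    | zero =>
      intro t ht
      have hlt := d.Klt 0 t ht
      rw [d.n0, pow_zero] at hlt
      have h0 : t = 0 := by omega
      subst h0
      rw [d.E0]
      simp [std]
    | succ k ih =>
      intro t ht
      have hlt := d.Klt (k + 1) t ht
      have hm := d.Knest k t ht
      have hq0 : 0 < q := by
        have := hpq.1
        omega
      have hb : t / q ^ d.n k < q ^ (q ^ d.n k + 6) := by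
        apply Nat.div_lt_of_lt_mul
        rw [← pow_add]
        rw [d.nS k] at hlt
        have e : d.n k + (q ^ d.n k + 6) = d.n k + q ^ d.n k + 6 := by ring
        rw [e]
        exact hlt
      have := key h1 p q hpq θ d k (t % q ^ d.n k) (t / q ^ d.n k) hm (ih _ hm) hb
      rw [Nat.mod_add_div] at this
      exact this
  exact ⟨hA, fun k t ht b hb => key h1 p q hpq θ d k t b ht (hA k t ht) hb⟩

end Pool.Agent.Q183.BD.TKept
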