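import Pool.Agent.Q183.BD.Stmts

set_option autoImplicit false

open MeasureTheory Filter Topology
open scoped ENNReal

namespace Pool.Agent.Q183.BD.TLevel

open Pool.Agent.Q183.BD

private theorem sum_split (f : ℕ → ℝ) (N M : ℕ) : ∑ t ∈ Finset.range (N * M), f t =
    ∑ t ∈ Finset.range N, ∑ b ∈ Finset.range M, f (t + N * b) := by
  rw [Finset.sum_comm]
  induction M with
  | zero => simp
  | succ M ih =>
    rw [Nat.mul_succ, Finset.sum_range_add, ih, Finset.sum_range_succ]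
    congr 1
    apply Finset.sum_congr rfl
    intro t _
    rw [add_comm]

theorem main (hPsum : TaskPsum) (hP : TaskP) : TaskLevel := by
  intro p q hA θ d k
  obtain ⟨hadd, hper, _, _⟩ := hP p q hA
  have hp : 0 < p := by have := hA.1; have := hA.2.2; omega
  have hpR : (p : ℝ) ≠ 0 := by exact_mod_cast hp.ne'
  induction k with
  | zero =>
    intro ξ
    rw [d.n0]
    simp [P]
  | succ k ih =>
    intro ξ
    have hkey : ∀ t ∈ Finset.range (q ^ d.n k), ∀ b ∈ Finset.range (q ^ (q ^ d.n k + 6)),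
        ‖P p q (d.n (k + 1)) (ξ + (d.E (t + q ^ d.n k * b) : ℝ))‖ ^ 2 =
          ‖P p q (d.n k) (ξ + (d.E t : ℝ))‖ ^ 2 *
          ‖P p q (q ^ d.n k + 6) ((ξ + (d.E t : ℝ)) / (p : ℝ) ^ d.n k + (std p q b : ℝ))‖ ^ 2 := by
      intro t ht b hb
      rw [Finset.mem_range] at ht hb
      obtain ⟨z, hz⟩ : ∃ z : ℤ, (d.E (t + q ^ d.n k * b) : ℝ) = (d.E t : ℝ) +
          (p : ℝ) ^ d.n k * (std p q b : ℝ) + (p : ℝ) ^ d.n (k + 1) * z := by
        by_cases hb1 : b = 0
        · subst hb1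
          refine ⟨0, ?_⟩
          simp [std]
        · rw [d.ES k t b ht (by omega) hb]
          split_ifs with h
          · refine ⟨0, ?_⟩
            push_cast
            ring
          · refine ⟨((q * p ^ (t + q ^ d.n k * b + 2) : ℕ) : ℤ), ?_⟩
            push_cast
            rw [show d.n (k + 1) + (t + q ^ d.n k * b) + 2 =
              d.n (k + 1) + (t + q ^ d.n k * b + 2) by ring, pow_add _ (d.n (k + 1))]
            ring
      have e1 : ξ + (d.E (t + q ^ d.n k * b) : ℝ) = (ξ + (d.E t : ℝ) +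
          (p : ℝ) ^ d.n k * ((std p q b : ℕ) : ℤ)) + (p : ℝ) ^ d.n (k + 1) * z := by
        rw [hz]
        push_cast
        ring
      rw [e1, hper, show d.n (k + 1) = d.n k + (q ^ d.n k + 6) by rw [d.nS k]; ring,
        hadd (d.n k) (q ^ d.n k + 6), hper, norm_mul, mul_pow]
      congr 3
      have : ((((std p q b : ℕ) : ℤ)) : ℝ) = (std p q b : ℝ) := by push_cast; rfl
      rw [this]
      field_simp
    rw [show q ^ d.n (k + 1) = q ^ d.n k * q ^ (q ^ d.n k + 6) by
      rw [d.nS k, ← pow_add]; rfl, sum_split]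
    rw [Finset.sum_congr rfl (fun t ht => Finset.sum_congr rfl (hkey t ht))]
    have h2 : ∀ t ∈ Finset.range (q ^ d.n k), ∑ b ∈ Finset.range (q ^ (q ^ d.n k + 6)),
        ‖P p q (d.n k) (ξ + (d.E t : ℝ))‖ ^ 2 *
          ‖P p q (q ^ d.n k + 6) ((ξ + (d.E t : ℝ)) / (p : ℝ) ^ d.n k + (std p q b : ℝ))‖ ^ 2 =
        ‖P p q (d.n k) (ξ + (d.E t : ℝ))‖ ^ 2 := by
      intro t _
      rw [← Finset.mul_sum, hPsum p q hA, mul_one]
    rw [Finset.sum_congr rfl h2, ih ξ]

end Pool.Agent.Q183.BD.TLevel
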