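import Pool.Agent.Q183.BD.Stmts

set_option autoImplicit false

open MeasureTheory Filter Topology
open scoped ENNReal

namespace Pool.Agent.Q183.BD.TLow

open Pool.Agent.Q183.BD

theorem n_ge {p q : ℕ} {θ : ℝ} (d : Data p q θ) (k : ℕ) : k ≤ d.n k := by
  induction k with
  | zero => exact Nat.zero_le _
  | succ k ih => rw [d.nS]; omega

theorem hpow {p q : ℕ} (h : Adm p q) (N : ℕ) :
    ((((q:ℝ) - 1) / (2 * ((p:ℝ) - 1))) * (p:ℝ)^N) ^ sdim p q * Mpq p q = (q:ℝ)^N := by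
  obtain ⟨h2, hd, hlt⟩ := h
  have hq2 : (2:ℝ) ≤ (q:ℝ) := by exact_mod_cast h2
  have hpq : (q:ℝ) < (p:ℝ) := by exact_mod_cast hlt
  have hp : (0:ℝ) < (p:ℝ) := by linarith
  have hq : (0:ℝ) < (q:ℝ) := by linarith
  have hp1 : (0:ℝ) < (p:ℝ) - 1 := by linarith
  have hq1 : (0:ℝ) < (q:ℝ) - 1 := by linarith
  unfold Mpq
  rw [← Real.mul_rpow (by positivity) (by positivity)]
  have e : ((((q:ℝ) - 1) / (2 * ((p:ℝ) - 1))) * (p:ℝ)^N) * (2 * ((p : ℝ) - 1) / ((q : ℝ) - 1))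
      = (p:ℝ)^N := by field_simp
  rw [e]
  have hs : (p:ℝ)^(sdim p q) = q := by
    unfold sdim
    have hl : 0 < Real.log p := Real.log_pos (by linarith)
    rw [Real.rpow_def_of_pos hp, mul_div_cancel₀ _ hl.ne', Real.exp_log hq]
  rw [← Real.rpow_natCast, ← Real.rpow_mul hp.le, mul_comm, Real.rpow_mul hp.le, hs,
    Real.rpow_natCast]

theorem main (hKept : TaskKept) (hStd : TaskStd) : TaskLow := by
  intro p q hA θ hθ0 hθ1 d
  obtain ⟨hSa, hSb, hSc, hSd, hSe, hSf⟩ := hStd p q hA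
  obtain ⟨hK1, hK2⟩ := hKept p q hA θ d
  have hA' := hA
  obtain ⟨h2, hd, hlt⟩ := hA'
  have hq2 : (2:ℝ) ≤ (q:ℝ) := by exact_mod_cast h2
  have hpq : (q:ℝ) < (p:ℝ) := by exact_mod_cast hlt
  have hp : (0:ℝ) < (p:ℝ) := by linarith
  have hq : (0:ℝ) < (q:ℝ) := by linarith
  have hp1 : (0:ℝ) < (p:ℝ) - 1 := by linarith
  have hq1 : (0:ℝ) < (q:ℝ) - 1 := by linarith
  unfold upperDensity
  apply Filter.le_limsup_of_frequently_le
  · rw [Filter.frequently_atTop]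
    intro a
    have hc0 : 0 < ((q:ℝ) - 1) / (2 * ((p:ℝ) - 1)) := by positivity
    obtain ⟨k, hk⟩ : ∃ k : ℕ, a ≤ (((q:ℝ) - 1) / (2 * ((p:ℝ) - 1))) * (p:ℝ)^(d.n (k+1)) := by
      obtain ⟨k, hk⟩ := pow_unbounded_of_one_lt (a / (((q:ℝ) - 1) / (2 * ((p:ℝ) - 1))))
        (show (1:ℝ) < p by linarith)
      refine ⟨k, ?_⟩
      have h1 : (p:ℝ)^k ≤ (p:ℝ)^(d.n (k+1)) :=
        pow_le_pow_right₀ (by linarith) (by have := n_ge d (k+1); omega)
      rw [div_lt_iff₀ hc0] at hk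
      nlinarith
    refine ⟨_, hk, ?_⟩
    generalize hcdef : ((q:ℝ) - 1) / (2 * ((p:ℝ) - 1)) = c at hc0 hk
    refine le_trans ?_ (le_iSup _ (c * ((p:ℝ)^(d.n (k+1)) - 1)))
    have hpw := hpow hA (d.n (k+1))
    rw [hcdef] at hpw
    have hhpos : 0 < (c * (p:ℝ)^(d.n (k+1))) ^ sdim p q := Real.rpow_pos_of_pos (by positivity) _
    rw [ENNReal.le_div_iff_mul_le (Or.inl (by simpa using hhpos)) (Or.inl ENNReal.ofReal_ne_top),
      ← ENNReal.ofReal_mul' hhpos.le]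
    have e1 : θ * Mpq p q * (c * (p:ℝ)^(d.n (k+1))) ^ sdim p q = θ * (q:ℝ)^(d.n (k+1)) := by
      rw [← hpw]; ring
    rw [e1]
    -- the points
    have hN : d.n (k+1) = d.n k + (q ^ d.n k + 6) := by rw [d.nS]; ring
    set m := q ^ d.n k + 6 with hm
    let g : ℕ × ℕ → ℝ := fun x => (std p q (x.1 + q ^ d.n k * x.2) : ℝ)
    have ginj : Set.InjOn g ((d.K k ×ˢ Finset.range (q ^ m) : Finset (ℕ × ℕ)) : Set (ℕ × ℕ)) := by
      intro x hx y hy hxy
      simp only [Finset.coe_product, Set.mem_prod, Finset.mem_coe] at hx hy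
      have hx1 := d.Klt k _ hx.1
      have hy1 := d.Klt k _ hy.1
      have h3 : std p q (x.1 + q ^ d.n k * x.2) = std p q (y.1 + q ^ d.n k * y.2) := by
        have h3' : ((std p q (x.1 + q ^ d.n k * x.2) : ℕ) : ℝ) =
          ((std p q (y.1 + q ^ d.n k * y.2) : ℕ) : ℝ) := hxy
        exact_mod_cast h3'
      have h4 := hSc.injective h3
      have h5 : x.1 = y.1 := by
        have := congrArg (fun t => t % q ^ d.n k) h4
        simpa [Nat.add_mul_mod_self_left, Nat.mod_eq_of_lt hx1, Nat.mod_eq_of_lt hy1] using this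
      have hqp : 0 < q ^ d.n k := by positivity
      have h6 : x.2 = y.2 := by
        rw [h5] at h4
        exact Nat.eq_of_mul_eq_mul_left hqp (Nat.add_left_cancel h4)
      exact Prod.ext h5 h6
    have hcard : ((d.K k ×ˢ Finset.range (q ^ m)).image g).card = (d.K k).card * q ^ m := by
      rw [Finset.card_image_of_injOn ginj, Finset.card_product, Finset.card_range]
    have hsub : (((d.K k ×ˢ Finset.range (q ^ m)).image g : Finset ℝ) : Set ℝ) ⊆
        (Set.range fun t : ℕ => (d.E t : ℝ)) ∩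
          Set.Ioo (c * ((p:ℝ)^(d.n (k+1)) - 1) - c * (p:ℝ)^(d.n (k+1)))
            (c * ((p:ℝ)^(d.n (k+1)) - 1) + c * (p:ℝ)^(d.n (k+1))) := by
      intro y hy
      simp only [Finset.coe_image, Set.mem_image, Finset.mem_coe, Finset.mem_product,
        Finset.mem_range] at hy
      obtain ⟨x, ⟨hx1, hx2⟩, rfl⟩ := hy
      have hE := hK2 k x.1 hx1 x.2 hx2
      have hlt1 := d.Klt k _ hx1
      have htlt : x.1 + q ^ d.n k * x.2 < q ^ d.n (k+1) := by
        rw [hN, pow_add]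
        calc x.1 + q ^ d.n k * x.2 < q ^ d.n k + q ^ d.n k * x.2 := by omega
          _ = q ^ d.n k * (x.2 + 1) := by ring
          _ ≤ q ^ d.n k * q ^ m := Nat.mul_le_mul_left _ hx2
      have hub := hSd _ _ htlt
      refine ⟨⟨x.1 + q ^ d.n k * x.2, by simp only [hE, g]⟩, ?_, ?_⟩
      · have : (0:ℝ) ≤ g x := by simp only [g]; positivity
        nlinarith
      · show (std p q (x.1 + q ^ d.n k * x.2) : ℝ) < _
        have hc2 : 2 * c * ((p:ℝ) - 1) = (q:ℝ) - 1 := by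
          rw [← hcdef]; field_simp
        have h7 : (std p q (x.1 + q ^ d.n k * x.2) : ℝ) ≤ 2 * c * ((p:ℝ) ^ d.n (k+1) - 1) := by
          have : (std p q (x.1 + q ^ d.n k * x.2) : ℝ) * ((p:ℝ) - 1) ≤
              (2 * c * ((p:ℝ) ^ d.n (k+1) - 1)) * ((p:ℝ) - 1) := by
            calc _ ≤ _ := hub
              _ = _ := by rw [← hc2]; ring
          exact le_of_mul_le_mul_right this hp1
        nlinarith
    have h8 : (((d.K k).card * q ^ m : ℕ) : ℝ≥0∞) ≤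
        ((((Set.range fun t : ℕ => (d.E t : ℝ)) ∩
          Set.Ioo (c * ((p:ℝ)^(d.n (k+1)) - 1) - c * (p:ℝ)^(d.n (k+1)))
            (c * ((p:ℝ)^(d.n (k+1)) - 1) + c * (p:ℝ)^(d.n (k+1)))).encard : ℕ∞) : ℝ≥0∞) := by
      have h9 := Set.encard_le_encard hsub
      rw [Set.encard_coe_eq_coe_finsetCard, hcard] at h9
      have h10 := ENat.toENNReal_le.2 h9
      simpa using h10
    refine le_trans ?_ h8
    have h11 : θ * (q:ℝ)^(d.n (k+1)) ≤ (((d.K k).card * q ^ m : ℕ) : ℝ) := by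
      have := d.Klo k
      rw [hN, pow_add]
      push_cast
      have hqm : (0:ℝ) < (q:ℝ)^m := by positivity
      nlinarith
    calc ENNReal.ofReal (θ * (q:ℝ)^(d.n (k+1))) ≤ ENNReal.ofReal (((d.K k).card * q ^ m : ℕ) : ℝ) :=
          ENNReal.ofReal_le_ofReal h11
      _ = (((d.K k).card * q ^ m : ℕ) : ℝ≥0∞) := ENNReal.ofReal_natCast _
  · isBoundedDefault

end Pool.Agent.Q183.BD.TLow
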