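import Pool.Agent.Q183.BD.Stmts

set_option autoImplicit false

namespace Pool.Agent.Q183.BD.TPsum

open Pool.Agent.Q183.BD

theorem sum_split (f : ℕ → ℝ) (n : ℕ) : ∀ q : ℕ, ∑ b ∈ Finset.range (n * q), f b =
    ∑ b₁ ∈ Finset.range q, ∑ b₀ ∈ Finset.range n, f (b₀ + n * b₁) := by
  intro q
  induction q with
  | zero => simp
  | succ q ih =>
    rw [Finset.sum_range_succ, ← ih, Nat.mul_succ, Finset.sum_range_add]
    congr 1
    exact Finset.sum_congr rfl fun x _ => by rw [add_comm]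

theorem main (h1 : TaskDd) (h2 : TaskP) (h3 : TaskStd) : TaskPsum := by
  intro p q hA m
  have hq : 2 ≤ q := hA.1
  have hp0 : (p : ℝ) ≠ 0 := by
    have : 0 < p := by have := hA.2.2; omega
    exact_mod_cast this.ne'
  obtain ⟨_, hper, _, _⟩ := h2 p q hA
  obtain ⟨hadd, hsmall, _⟩ := h3 p q hA
  induction m with
  | zero => intro y; simp [P]
  | succ m ih =>
    intro y
    rw [pow_succ, sum_split, Finset.sum_comm]
    rw [← ih y]
    refine Finset.sum_congr rfl fun b₀ hb₀ => ?_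
    have hb₀' : b₀ < q ^ m := Finset.mem_range.1 hb₀
    have key : ∀ b₁ ∈ Finset.range q,
        ‖P p q (m + 1) (y + (std p q (b₀ + q ^ m * b₁) : ℝ))‖ ^ 2 =
        ‖P p q m (y + (std p q b₀ : ℝ))‖ ^ 2 *
          ‖D q ((y + (std p q b₀ : ℝ)) / (p : ℝ) ^ m + b₁)‖ ^ 2 := by
      intro b₁ hb₁
      have hb₁' : b₁ < q := Finset.mem_range.1 hb₁
      rw [hadd m b₀ b₁ hb₀', hsmall b₁ hb₁']
      have e1 : P p q (m + 1) (y + ((std p q b₀ + p ^ m * b₁ : ℕ) : ℝ)) =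
          P p q m (y + ((std p q b₀ + p ^ m * b₁ : ℕ) : ℝ)) *
            D q ((y + ((std p q b₀ + p ^ m * b₁ : ℕ) : ℝ)) / (p : ℝ) ^ m) := by
        unfold P
        rw [Finset.prod_range_succ]
      have e2 : y + ((std p q b₀ + p ^ m * b₁ : ℕ) : ℝ) =
          (y + (std p q b₀ : ℝ)) + (p : ℝ) ^ m * ((b₁ : ℤ) : ℝ) := by
        push_cast; ring
      have e3 : (y + ((std p q b₀ + p ^ m * b₁ : ℕ) : ℝ)) / (p : ℝ) ^ m =
          (y + (std p q b₀ : ℝ)) / (p : ℝ) ^ m + b₁ := by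
        rw [e2]
        push_cast
        field_simp
      rw [e1, e3, e2, hper m _ (b₁ : ℤ), norm_mul, mul_pow]
    rw [Finset.sum_congr rfl key, ← Finset.mul_sum, h1 q hq, mul_one]

end Pool.Agent.Q183.BD.TPsum
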