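import Pool.Agent.Q183.BD.Stmts

set_option autoImplicit false

namespace Pool.Agent.Q183.BD.TStd

open Pool.Agent.Q183.BD

theorem std_zero (p q : ℕ) : std p q 0 = 0 := by simp [std]

theorem std_step {p q : ℕ} (hq : 2 ≤ q) (a r : ℕ) (hr : r < q) :
    std p q (q * a + r) = p * std p q a + r := by
  by_cases h : r ≠ 0 ∨ a ≠ 0
  · unfold std
    rw [add_comm (q * a) r, Nat.digits_add q (by omega) r a hr h, Nat.ofDigits_cons]
    push_cast
    ring
  · push Not at h
    obtain ⟨h1, h2⟩ := h
    subst h1 h2
    simp [std]

theorem std_add {p q : ℕ} (hq : 2 ≤ q) : ∀ n t b : ℕ, t < q ^ n →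
    std p q (t + q ^ n * b) = std p q t + p ^ n * std p q b := by
  intro n
  induction n with
  | zero =>
    intro t b ht
    have : t = 0 := by simpa using ht
    subst this
    simp [std_zero]
  | succ n ih =>
    intro t b ht
    have hq0 : 0 < q := by omega
    have ha : t / q < q ^ n := by
      rw [Nat.div_lt_iff_lt_mul hq0, ← pow_succ]
      exact ht
    have hr : t % q < q := Nat.mod_lt _ hq0
    have e1 : t + q ^ (n + 1) * b = q * (t / q + q ^ n * b) + t % q := by
      have := Nat.div_add_mod t q
      calc t + q ^ (n + 1) * b = (q * (t / q) + t % q) + q ^ (n + 1) * b := by rw [this]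
        _ = _ := by rw [pow_succ]; ring
    have e2 : std p q t = p * std p q (t / q) + t % q := by
      conv_lhs => rw [← Nat.div_add_mod t q]
      exact std_step hq _ _ hr
    rw [e1, std_step hq _ _ hr, ih _ _ ha, e2, pow_succ]
    ring

theorem std_lt {p q : ℕ} (hq : 2 ≤ q) (hpq : q < p) : ∀ N t t' : ℕ, t' ≤ N → t < t' →
    std p q t < std p q t' := by
  intro N
  induction N with
  | zero => intro t t' h1 h2; omega
  | succ N ih =>
    intro t t' h1 h2
    have hq0 : 0 < q := by omega
    have e : ∀ u, std p q u = p * std p q (u / q) + u % q := by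
      intro u
      conv_lhs => rw [← Nat.div_add_mod u q]
      exact std_step hq _ _ (Nat.mod_lt _ hq0)
    rw [e t, e t']
    have hr := Nat.mod_lt t hq0
    have hr' := Nat.mod_lt t' hq0
    have hd := Nat.div_add_mod t q
    have hd' := Nat.div_add_mod t' q
    rcases Nat.lt_or_ge (t / q) (t' / q) with h | h
    · have h3 : t' / q ≤ N := by
        have : t' / q < t' := Nat.div_lt_self (by omega) (by omega)
        omega
      have h4 := ih _ _ h3 h
      have h5 : p * (std p q (t / q) + 1) ≤ p * std p q (t' / q) := Nat.mul_le_mul_left _ h4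
      rw [mul_add, mul_one] at h5
      omega
    · have h6 : t / q = t' / q := le_antisymm (Nat.div_le_div_right h2.le) h
      rw [h6] at hd
      rw [h6]
      omega

theorem main : TaskStd := by
  rintro p q ⟨hq, hqp, hlt⟩
  have hq0 : 0 < q := by omega
  have h2q : 2 * q ≤ p := by
    obtain ⟨c, rfl⟩ := hqp
    have : 2 ≤ c := by
      by_contra hc
      push Not at hc
      interval_cases c <;> omega
    nlinarith
  have e : ∀ u, std p q u = p * std p q (u / q) + u % q := by
    intro u
    conv_lhs => rw [← Nat.div_add_mod u q]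
    exact std_step hq _ _ (Nat.mod_lt _ hq0)
  have hdiv : ∀ n t, t < q ^ (n + 1) → t / q < q ^ n := by
    intro n t ht
    rw [Nat.div_lt_iff_lt_mul hq0, ← pow_succ]
    exact ht
  refine ⟨std_add hq, ?_, ?_, ?_, ?_, fun a r hr => std_step hq a r hr⟩
  · intro b hb
    have := std_step (p := p) hq 0 b hb
    simpa [std_zero] using this
  · intro t t' h
    exact std_lt hq hlt t' t t' le_rfl h
  · intro n
    induction n with
    | zero =>
      intro t ht
      have : t = 0 := by simpa using ht
      subst this
      simp [std_zero]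
    | succ n ih =>
      intro t ht
      have h1 := ih _ (hdiv n t ht)
      have hr : t % q + 1 ≤ q := Nat.mod_lt _ hq0
      have hr' : ((t % q : ℕ) : ℝ) + 1 ≤ q := by exact_mod_cast hr
      have hp1 : (0 : ℝ) ≤ (p : ℝ) - 1 := by
        have : (1 : ℝ) ≤ p := by exact_mod_cast (by omega : 1 ≤ p)
        linarith
      have hp0 : (0 : ℝ) ≤ p := Nat.cast_nonneg _
      rw [e t]
      push_cast
      have h3 : ((t % q : ℕ) : ℝ) * ((p : ℝ) - 1) ≤ ((q : ℝ) - 1) * ((p : ℝ) - 1) :=
        mul_le_mul_of_nonneg_right (by linarith) hp1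
      have h4 := mul_le_mul_of_nonneg_left h1 hp0
      rw [pow_succ]
      push_cast at h3 h4 ⊢
      nlinarith
  · intro n
    induction n with
    | zero =>
      intro t ht
      have : t = 0 := by simpa using ht
      subst this
      simp [std_zero]
    | succ n ih =>
      intro t ht
      have h1 := ih _ (hdiv n t ht)
      have hr : t % q + 1 ≤ q := Nat.mod_lt _ hq0
      have h2 : p * (2 * std p q (t / q) + 1) ≤ p * p ^ n := Nat.mul_le_mul_left _ h1
      rw [e t, pow_succ, mul_comm (p ^ n) p]
      have h3 : p * (2 * std p q (t / q) + 1) = 2 * (p * std p q (t / q)) + p := by ring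
      rw [h3] at h2
      omega

end Pool.Agent.Q183.BD.TStd
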