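import Pool.Agent.Q183.BD.Stmts

open MeasureTheory Filter Topology
open scoped ENNReal InnerProductSpace

namespace Pool.Agent.Q183.BD.TStr

open Pool.Agent.Q183.BD

private lemma norm_ex (l x : ℝ) : ‖ex l x‖ = 1 := by
  unfold ex
  exact Complex.norm_exp_ofReal_mul_I _

private lemma cont_ex (l : ℝ) : Continuous (ex l) := by
  unfold ex
  fun_prop

private lemma conj_ex (l x : ℝ) : (starRingEnd ℂ) (ex l x) = ex (-l) x := by
  unfold ex
  rw [← Complex.exp_conj]
  congr 1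
  rw [map_mul, Complex.conj_ofReal, Complex.conj_I]
  push_cast
  ring

private lemma ex_mul (a b x : ℝ) : ex a x * ex b x = ex (a + b) x := by
  unfold ex
  rw [← Complex.exp_add]
  congr 1
  push_cast
  ring

private lemma ex_zero (x : ℝ) : ex 0 x = 1 := by
  unfold ex
  simp

variable (μ : Measure ℝ) [IsProbabilityMeasure μ]

private lemma FT_zero : FT μ 0 = 1 := by
  unfold FT
  simp [ex_zero]

omit [IsProbabilityMeasure μ] in
private lemma FT_neg (y : ℝ) : FT μ (-y) = (starRingEnd ℂ) (FT μ y) := by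
  unfold FT
  rw [← integral_conj]
  congr 1
  funext x
  rw [conj_ex]

private lemma memLp_ex (l : ℝ) : MemLp (ex l) 2 μ := by
  refine MemLp.of_bound (cont_ex l).aestronglyMeasurable 1 (ae_of_all _ fun x => ?_)
  rw [norm_ex]

private noncomputable def ee (l : ℝ) : Lp ℂ 2 μ := (memLp_ex μ l).toLp (ex l)

private lemma ee_coe (l : ℝ) : (ee μ l : ℝ → ℂ) =ᵐ[μ] ex l := (memLp_ex μ l).coeFn_toLp

private lemma inner_ee_left (l : ℝ) (f : Lp ℂ 2 μ) :
    (inner ℂ (ee μ l) f : ℂ) = ∫ x, ex (-l) x * f x ∂μ := by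
  rw [L2.inner_def]
  refine integral_congr_ae ?_
  filter_upwards [ee_coe μ l] with x hx
  rw [hx, RCLike.inner_apply, conj_ex, mul_comm]

private lemma inner_ee (a b : ℝ) : (inner ℂ (ee μ a) (ee μ b) : ℂ) = FT μ (b - a) := by
  rw [inner_ee_left]
  unfold FT
  refine integral_congr_ae ?_
  filter_upwards [ee_coe μ b] with x hx
  rw [hx, ex_mul]
  congr 1
  ring

private lemma norm_ee (a : ℝ) : ‖ee μ a‖ = 1 := by
  have h : (inner ℂ (ee μ a) (ee μ a) : ℂ) = 1 := by
    rw [inner_ee, sub_self, FT_zero]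
  have h3 : ‖ee μ a‖ ^ 2 = 1 := by
    rw [@norm_sq_eq_re_inner ℂ, h]
    simp
  nlinarith [norm_nonneg (ee μ a)]

theorem main (hT : TaskTotal) : TaskStr := by
  intro μ _ E hE
  have h1 : ∀ t t0 : ℕ, t ≠ t0 → FT μ ((E t : ℝ) - E t0) = 0 := by
    intro t t0 ht
    have h := hE (-(E t0 : ℝ))
    have hs := sum_le_hasSum ({t, t0} : Finset ℕ) (fun i _ => by positivity) h
    rw [Finset.sum_pair ht] at hs
    have h0 : ‖FT μ (-(E t0 : ℝ) + (E t0 : ℝ))‖ ^ 2 = 1 := by
      rw [neg_add_cancel, FT_zero]; simp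
    rw [h0] at hs
    have h2 : ‖FT μ (-(E t0 : ℝ) + (E t : ℝ))‖ ^ 2 = 0 :=
      le_antisymm (by linarith) (by positivity)
    have h3 : FT μ (-(E t0 : ℝ) + (E t : ℝ)) = 0 := by
      simpa using h2
    rw [show (E t : ℝ) - E t0 = -(E t0 : ℝ) + (E t : ℝ) by ring]
    exact h3
  have hinj : Function.Injective E := by
    intro t t' htt
    by_contra hne
    have := h1 t t' hne
    rw [htt, sub_self, FT_zero] at this
    exact one_ne_zero this
  set Λ : Set ℝ := Set.range fun t : ℕ => (E t : ℝ) with hΛ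
  have horth : Orthonormal ℂ (fun l : Λ => ee μ (l : ℝ)) := by
    refine ⟨fun l => norm_ee μ _, ?_⟩
    rintro ⟨l, t, rfl⟩ ⟨l', t', rfl⟩ hll
    have hne : t' ≠ t := by
      rintro rfl
      exact hll rfl
    show (inner ℂ (ee μ (E t : ℝ)) (ee μ (E t' : ℝ)) : ℂ) = 0
    rw [inner_ee]
    exact h1 t' t hne
  have horth' : Orthonormal ℂ (fun t : ℕ => ee μ (E t : ℝ)) := by
    refine ⟨fun l => norm_ee μ _, ?_⟩
    intro t t' hne
    show (inner ℂ (ee μ (E t : ℝ)) (ee μ (E t' : ℝ)) : ℂ) = 0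
    rw [inner_ee]
    exact h1 t' t hne.symm
  have hbot : (Submodule.span ℂ (Set.range (fun l : Λ => ee μ (l : ℝ))))ᗮ = ⊥ := by
    rw [Submodule.eq_bot_iff]
    intro f hf
    by_contra hf0
    have hfv : ∀ t : ℕ, (inner ℂ (ee μ (E t : ℝ)) f : ℂ) = 0 := by
      intro t
      exact (Submodule.mem_orthogonal _ _).1 hf _
        (Submodule.subset_span ⟨⟨(E t : ℝ), t, rfl⟩, rfl⟩)
    set g : Lp ℂ 2 μ := ((‖f‖ : ℂ)⁻¹) • f with hg
    have hfn : ‖f‖ ≠ 0 := norm_ne_zero_iff.2 hf0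
    have hg1 : ‖g‖ = 1 := by
      rw [hg, norm_smul, norm_inv, Complex.norm_real, Real.norm_eq_abs, abs_norm]
      exact inv_mul_cancel₀ hfn
    have hgv : ∀ t : ℕ, (inner ℂ (ee μ (E t : ℝ)) g : ℂ) = 0 := by
      intro t
      rw [hg, inner_smul_right, hfv t, mul_zero]
    let w : Option ℕ → Lp ℂ 2 μ := fun o => o.elim g (fun t => ee μ (E t : ℝ))
    have hw : Orthonormal ℂ w := by
      refine ⟨?_, ?_⟩
      · rintro (_ | t)
        · exact hg1
        · exact norm_ee μ _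
      · rintro (_ | t) (_ | t') hne
        · exact absurd rfl hne
        · show (inner ℂ g (ee μ (E t' : ℝ)) : ℂ) = 0
          rw [← inner_conj_symm, hgv t', map_zero]
        · exact hgv t
        · show (inner ℂ (ee μ (E t : ℝ)) (ee μ (E t' : ℝ)) : ℂ) = 0
          exact horth'.2 (fun h => hne (by rw [h]))
    have hkey : ∀ ξ : ℝ, (inner ℂ g (ee μ ξ) : ℂ) = 0 := by
      intro ξ
      have hsum : HasSum (fun t : ℕ => ‖(inner ℂ (ee μ (E t : ℝ)) (ee μ ξ) : ℂ)‖ ^ 2) 1 := by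
        have heq : (fun t : ℕ => ‖(inner ℂ (ee μ (E t : ℝ)) (ee μ ξ) : ℂ)‖ ^ 2) =
            fun t : ℕ => ‖FT μ (-ξ + (E t : ℝ))‖ ^ 2 := by
          funext t
          rw [inner_ee, show ξ - (E t : ℝ) = -(-ξ + E t) by ring, FT_neg, RCLike.norm_conj]
        rw [heq]
        exact hE (-ξ)
      have hB : ∀ s : Finset ℕ, ‖(inner ℂ g (ee μ ξ) : ℂ)‖ ^ 2 +
          ∑ t ∈ s, ‖(inner ℂ (ee μ (E t : ℝ)) (ee μ ξ) : ℂ)‖ ^ 2 ≤ 1 := by
        intro s
        have h := hw.sum_inner_products_le (s := Finset.insertNone s) (ee μ ξ)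
        rw [norm_ee, one_pow, Finset.sum_insertNone] at h
        exact h
      have hlim : ‖(inner ℂ g (ee μ ξ) : ℂ)‖ ^ 2 + 1 ≤ 1 :=
        le_of_tendsto' (hsum.const_add _) hB
      have h0 : ‖(inner ℂ g (ee μ ξ) : ℂ)‖ ^ 2 = 0 :=
        le_antisymm (by linarith) (by positivity)
      simpa using h0
    have hzero : f =ᵐ[μ] (0 : ℝ → ℂ) := by
      refine hT μ f (Lp.memLp f) fun ξ => ?_
      have h := hkey (-ξ)
      have h2 : (inner ℂ (ee μ (-ξ)) f : ℂ) = 0 := by
        have h3 : (inner ℂ (ee μ (-ξ)) g : ℂ) = 0 := by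
          rw [← inner_conj_symm, h, map_zero]
        rw [hg, inner_smul_right] at h3
        rcases mul_eq_zero.1 h3 with h4 | h4
        · exfalso
          apply hfn
          have := inv_eq_zero.1 h4
          exact_mod_cast this
        · exact h4
      rw [inner_ee_left, neg_neg] at h2
      exact h2
    apply hf0
    rw [Lp.eq_zero_iff_ae_eq_zero]
    exact hzero
  refine ⟨Set.countable_range _, HilbertBasis.mkOfOrthogonalEqBot horth hbot, fun l => ?_⟩
  rw [HilbertBasis.coe_mkOfOrthogonalEqBot]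
  exact ee_coe μ _

end Pool.Agent.Q183.BD.TStr
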