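import Pool.Agent.Q183.BD.Stmts

set_option autoImplicit false

namespace Pool.Agent.Q183.BD.TSumOne

open MeasureTheory Filter Topology
open scoped ENNReal
open Pool.Agent.Q183.BD

theorem main (hDCT : TaskDCT) (hLevel : TaskLevel) (hEform : TaskEform) (hFlow : TaskFlow)
    (hShift : TaskShift) (hFT : TaskFT) : TaskSumOne := by
  intro p q hpq μ _ hμ θ d ξ
  obtain ⟨hF1, _, _⟩ := hFlow p q hpq μ hμ
  obtain ⟨_, hF2, _⟩ := hFlow p q hpq μ hμ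
  obtain ⟨c, hc0, hc1, hcA, hcB⟩ := hShift p q hpq μ hμ
  obtain ⟨⟨_, _, hN⟩, _⟩ := hFT p q hpq μ
  have hq2 : 2 ≤ q := hpq.1
  have hp2 : 2 ≤ p := by have := hpq.2.2; omega
  have hn : ∀ k, k ≤ d.n k := by
    intro k
    induction k with
    | zero => exact Nat.zero_le _
    | succ k ih => rw [d.nS k]; omega
  have hnT : Tendsto d.n atTop atTop := tendsto_atTop_mono hn tendsto_id
  have hpow : ∀ k, (0 : ℝ) < (p : ℝ) ^ d.n k := fun k => by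
    have : (0 : ℝ) < p := by exact_mod_cast (by omega : 0 < p)
    positivity
  have hmul : ∀ k t, ‖FT μ (ξ + (d.E t : ℝ))‖ ^ 2 = ‖P p q (d.n k) (ξ + (d.E t : ℝ))‖ ^ 2 *
      ‖FT μ ((ξ + (d.E t : ℝ)) / (p : ℝ) ^ d.n k)‖ ^ 2 := fun k t => by
    rw [hF1 (d.n k) (ξ + (d.E t : ℝ)), norm_mul, mul_pow]
  refine hDCT (fun t => ‖FT μ (ξ + (d.E t : ℝ))‖ ^ 2)
    (fun k t => ‖P p q (d.n k) (ξ + (d.E t : ℝ))‖ ^ 2) (fun k => q ^ d.n k) (c ^ 2) (by positivity)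
    (fun t => sq_nonneg _) (fun k t => sq_nonneg _) ?_ (fun k => hLevel p q hpq θ d k ξ) ?_ ?_ ?_
  · refine tendsto_atTop_mono (fun k => ?_) tendsto_id
    exact (hn k).trans (Nat.lt_pow_self (by omega)).le
  · intro t
    exact (((hF2 (ξ + (d.E t : ℝ))).comp hnT).norm).pow 2
  · intro k t _
    show ‖FT μ (ξ + (d.E t : ℝ))‖ ^ 2 ≤ ‖P p q (d.n k) (ξ + (d.E t : ℝ))‖ ^ 2
    rw [hmul k t]
    refine mul_le_of_le_one_right (sq_nonneg _) ?_
    exact pow_le_one₀ (norm_nonneg _) (hN _)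
  · have hlarge : ∀ᶠ k in atTop, 8 * |ξ| ≤ (p : ℝ) ^ d.n k := by
      have h1 : Tendsto (fun k => (p : ℝ) ^ d.n k) atTop atTop :=
        (tendsto_pow_atTop_atTop_of_one_lt (by exact_mod_cast (by omega : 1 < p))).comp hnT
      exact h1.eventually_ge_atTop _
    obtain ⟨k1, hk1⟩ := eventually_atTop.1 hlarge
    refine ⟨k1 + 1, fun k hk t ht => ?_⟩
    show c ^ 2 * ‖P p q (d.n k) (ξ + (d.E t : ℝ))‖ ^ 2 ≤ ‖FT μ (ξ + (d.E t : ℝ))‖ ^ 2
    rw [hmul k t, mul_comm]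
    refine mul_le_mul_of_nonneg_left ?_ (sq_nonneg _)
    refine pow_le_pow_left₀ hc0.le ?_ 2
    obtain ⟨k', rfl⟩ : ∃ k', k = k' + 1 := ⟨k - 1, by omega⟩
    obtain ⟨x, L, hx, hE⟩ := hEform p q hpq θ d k' t ht
    have hx' : 8 * (x : ℝ) ≤ 5 * (p : ℝ) ^ d.n (k' + 1) := by exact_mod_cast hx
    have hP := hpow (k' + 1)
    have hξ := hk1 (k' + 1) (by omega)
    have hx0 : (0 : ℝ) ≤ x := Nat.cast_nonneg _
    have hb : |(ξ + x) / (p : ℝ) ^ d.n (k' + 1)| ≤ 3 / 4 := by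
      rw [abs_div, abs_of_pos hP, div_le_iff₀ hP]
      calc |ξ + x| ≤ |ξ| + |(x : ℝ)| := abs_add_le _ _
        _ = |ξ| + x := by rw [abs_of_nonneg hx0]
        _ ≤ 3 / 4 * (p : ℝ) ^ d.n (k' + 1) := by linarith
    rcases hE with hE | hE
    · rw [hE]
      exact hcA _ hb
    · have h2 : (ξ + (d.E t : ℝ)) / (p : ℝ) ^ d.n (k' + 1) =
          (ξ + x) / (p : ℝ) ^ d.n (k' + 1) + q * (p : ℝ) ^ L := by
        rw [hE]
        push_cast
        rw [pow_add]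
        field_simp
        ring
      rw [h2]
      exact hcB _ L hb

end Pool.Agent.Q183.BD.TSumOne
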