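import Pool.Agent.Q183.BD.Stmts

open MeasureTheory Filter Topology
open scoped ENNReal

namespace Pool.Agent.Q183.BD.TTotal

theorem norm_ex (l x : ℝ) : ‖ex l x‖ = 1 := by
  unfold ex
  exact Complex.norm_exp_ofReal_mul_I _

theorem ex_cont (l : ℝ) : Continuous (ex l) := by
  unfold ex
  fun_prop

theorem int_mul {μ : Measure ℝ} {f : ℝ → ℂ} (hf : Integrable f μ) (l : ℝ) : Integrable (fun x => ex l x * f x) μ := by
  refine hf.mono ((ex_cont l).aestronglyMeasurable.mul hf.1) (ae_of_all _ fun x => ?_)
  rw [norm_mul, norm_ex, one_mul]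

/-- real integrable functions are determined by their Fourier transform -/
theorem real_part (μ : Measure ℝ) [IsProbabilityMeasure μ] (u : ℝ → ℝ) (hu : Integrable u μ)
    (h : ∀ ξ : ℝ, ∫ x, ex ξ x * (u x : ℂ) ∂μ = 0) : u =ᵐ[μ] 0 := by
  have hpi := Real.pi_pos
  set f₁ : ℝ → ℝ≥0∞ := fun x => ENNReal.ofReal (u x) with hf₁
  set f₂ : ℝ → ℝ≥0∞ := fun x => ENNReal.ofReal (-u x) with hf₂
  have m₁ : AEMeasurable f₁ μ := hu.1.aemeasurable.ennreal_ofReal
  have m₂ : AEMeasurable f₂ μ := hu.1.aemeasurable.neg.ennreal_ofReal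
  have i₁ : ∫⁻ x, f₁ x ∂μ ≠ ∞ := hu.lintegral_lt_top.ne
  have i₂ : ∫⁻ x, f₂ x ∂μ ≠ ∞ := hu.neg.lintegral_lt_top.ne
  haveI : IsFiniteMeasure (μ.withDensity f₁) := isFiniteMeasure_withDensity i₁
  haveI : IsFiniteMeasure (μ.withDensity f₂) := isFiniteMeasure_withDensity i₂
  have key : μ.withDensity f₁ = μ.withDensity f₂ := by
    apply Measure.ext_of_charFun
    funext t
    have hce : Continuous fun x : ℝ => Complex.exp (t * x * Complex.I) := by fun_prop
    have hne : ∀ x : ℝ, ‖Complex.exp (t * x * Complex.I)‖ = 1 := by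
      intro x
      have := Complex.norm_exp_ofReal_mul_I (t * x)
      push_cast at this
      exact this
    have j₁ : Integrable (fun x => (f₁ x).toReal • Complex.exp (t * x * Complex.I)) μ := by
      refine hu.mono (m₁.ennreal_toReal.aestronglyMeasurable.smul hce.aestronglyMeasurable) (ae_of_all _ fun x => ?_)
      rw [norm_smul, hne, mul_one, hf₁, ENNReal.toReal_ofReal', Real.norm_eq_abs, Real.norm_eq_abs,
        abs_of_nonneg (le_max_right _ _)]
      exact max_le (le_abs_self _) (abs_nonneg _)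
    have j₂ : Integrable (fun x => (f₂ x).toReal • Complex.exp (t * x * Complex.I)) μ := by
      refine hu.mono (m₂.ennreal_toReal.aestronglyMeasurable.smul hce.aestronglyMeasurable) (ae_of_all _ fun x => ?_)
      rw [norm_smul, hne, mul_one, hf₂, ENNReal.toReal_ofReal', Real.norm_eq_abs, Real.norm_eq_abs,
        abs_of_nonneg (le_max_right _ _)]
      exact max_le (neg_le_abs _) (abs_nonneg _)
    rw [charFun_apply_real, charFun_apply_real,
      integral_withDensity_eq_integral_toReal_smul₀ m₁ (ae_of_all _ fun x => ENNReal.ofReal_lt_top),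
      integral_withDensity_eq_integral_toReal_smul₀ m₂ (ae_of_all _ fun x => ENNReal.ofReal_lt_top),
      ← sub_eq_zero, ← integral_sub j₁ j₂, ← h (t / (2 * Real.pi))]
    refine integral_congr_ae (ae_of_all _ fun x => ?_)
    have e : 2 * Real.pi * (t / (2 * Real.pi) * x) = t * x := by field_simp
    show (f₁ x).toReal • Complex.exp (t * x * Complex.I) - (f₂ x).toReal • Complex.exp (t * x * Complex.I) =
      ex (t / (2 * Real.pi)) x * (u x : ℂ)
    rw [← sub_smul, hf₁, hf₂]
    simp only [ENNReal.toReal_ofReal']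
    rw [max_zero_sub_max_neg_zero_eq_self]
    unfold ex
    rw [e, Complex.real_smul, mul_comm]
    push_cast
    ring_nf
  rw [withDensity_eq_iff m₁ m₂ i₁] at key
  filter_upwards [key] with x hx
  simp only [hf₁, hf₂] at hx
  have h1 := congrArg ENNReal.toReal hx
  rw [ENNReal.toReal_ofReal', ENNReal.toReal_ofReal'] at h1
  have h2 := max_zero_sub_max_neg_zero_eq_self (u x)
  show u x = 0
  linarith

theorem main : TaskTotal := by
  intro μ _ f hf h
  have hfi : Integrable f μ := hf.integrable one_le_two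
  have hcj : ∀ ξ : ℝ, ∫ x, ex ξ x * (starRingEnd ℂ) (f x) ∂μ = 0 := by
    intro ξ
    have h2 : (starRingEnd ℂ) (∫ x, ex (-ξ) x * f x ∂μ) = ∫ x, ex ξ x * (starRingEnd ℂ) (f x) ∂μ := by
      rw [← integral_conj]
      refine integral_congr_ae (ae_of_all _ fun x => ?_)
      show (starRingEnd ℂ) (ex (-ξ) x * f x) = ex ξ x * (starRingEnd ℂ) (f x)
      rw [map_mul]
      congr 1
      unfold ex
      rw [← Complex.exp_conj, map_mul, Complex.conj_ofReal, Complex.conj_I]
      congr 1
      push_cast
      ring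
    rw [← h2, h, map_zero]
  have hci : Integrable (fun x => (starRingEnd ℂ) (f x)) μ := by
    refine hfi.mono (Complex.continuous_conj.comp_aestronglyMeasurable hfi.1) (ae_of_all _ fun x => ?_)
    rw [RCLike.norm_conj]
  have hre : (fun x => (f x).re) =ᵐ[μ] 0 := by
    refine real_part μ _ hfi.re fun ξ => ?_
    have e : ∀ x, ex ξ x * ((f x).re : ℂ) = (1 / 2 : ℂ) * (ex ξ x * f x + ex ξ x * (starRingEnd ℂ) (f x)) := by
      intro x
      have := Complex.add_conj (f x)
      rw [← mul_add, this]
      push_cast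
      ring
    simp_rw [e]
    rw [integral_const_mul, integral_add (int_mul hfi ξ) (int_mul hci ξ), h, hcj]
    simp
  have him : (fun x => (f x).im) =ᵐ[μ] 0 := by
    refine real_part μ _ hfi.im fun ξ => ?_
    have e : ∀ x, ex ξ x * ((f x).im : ℂ) = (1 / (2 * Complex.I) : ℂ) * (ex ξ x * f x - ex ξ x * (starRingEnd ℂ) (f x)) := by
      intro x
      have := Complex.sub_conj (f x)
      rw [← mul_sub, this]
      have hI := Complex.I_ne_zero
      push_cast
      field_simp
    simp_rw [e]
    rw [integral_const_mul, integral_sub (int_mul hfi ξ) (int_mul hci ξ), h, hcj]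
    simp
  filter_upwards [hre, him] with x h1 h2
  exact Complex.ext h1 h2

end Pool.Agent.Q183.BD.TTotal
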