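import Pool.Agent.Q183.BD.Stmts

set_option autoImplicit false

namespace Pool.Agent.Q183.BD.TWindow

open MeasureTheory Filter Topology
open scoped ENNReal
open Pool.Agent.Q183.BD

theorem main (hDich : TaskDich) (hSparse : TaskSparse) (hCount : TaskCount) (hStd : TaskStd) :
    TaskWindow := by
  classical
  intro p q hpq θ d k T x l hl hT
  have hq2 : 2 ≤ q := hpq.1
  have hp2 : 2 ≤ p := by have := hpq.2.2; omega
  have hp0 : (0 : ℝ) < p := by exact_mod_cast (by omega : 0 < p)
  have hP : (0 : ℝ) < (p : ℝ) ^ d.n k := by positivity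
  obtain ⟨hS, -, -, -, -, -⟩ := hStd p q hpq
  set N := q ^ d.n k with hNdef
  have hN : 0 < N := by rw [hNdef]; positivity
  set B : ℝ := (1 + l / (p : ℝ) ^ d.n k * (((p : ℝ) - 1) / ((q : ℝ) - 1))) ^ sdim p q with hB
  let T1 := T.filter (fun t => t < N)
  let T2 := T.filter (fun t => Sparse p q d t)
  let T3 := T.filter (fun t => t % N ∈ d.K k ∧ d.E t = std p q t)
  have hsub : T ⊆ T1 ∪ T3 ∪ T2 := by
    intro t ht
    simp only [T1, T2, T3, Finset.mem_union, Finset.mem_filter]
    rcases lt_or_ge t N with h | h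
    · exact Or.inl (Or.inl ⟨ht, h⟩)
    · rcases hDich p q hpq θ d k t h with h1 | h1
      · exact Or.inl (Or.inr ⟨ht, h1⟩)
      · exact Or.inr ⟨ht, h1⟩
  have hc : T.card ≤ T1.card + T3.card + T2.card :=
    (Finset.card_le_card hsub).trans ((Finset.card_union_le _ _).trans
      (Nat.add_le_add_right (Finset.card_union_le _ _) _))
  have h1 : T1.card ≤ N := by
    have : T1 ⊆ Finset.range N := fun t ht => Finset.mem_range.2 (Finset.mem_filter.1 ht).2
    simpa using Finset.card_le_card this
  have h2 : (T2.card : ℝ) ≤ 2 + Real.log l / Real.log p := by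
    refine hSparse p q hpq θ d T2 x l hl (fun t ht => ?_)
    have h := Finset.mem_filter.1 ht
    exact ⟨h.2, hT t h.1⟩
  have h3 : (T3.card : ℝ) ≤ (d.K k).card * B := by
    have hmap : ∀ t ∈ T3, t % N ∈ d.K k := fun t ht => (Finset.mem_filter.1 ht).2.1
    rw [Finset.card_eq_sum_card_fiberwise hmap, Nat.cast_sum, ← nsmul_eq_mul]
    refine Finset.sum_le_card_nsmul _ _ _ (fun t0 ht0 => ?_)
    have ht0N : t0 < N := d.Klt k t0 ht0
    set S := T3.filter (fun t => t % N = t0) with hSd
    have hinj : Set.InjOn (fun t => t / N) (S : Set ℕ) := by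
      intro a ha b hb hab
      have ha' := (Finset.mem_filter.1 (Finset.mem_coe.1 ha)).2
      have hb' := (Finset.mem_filter.1 (Finset.mem_coe.1 hb)).2
      simp only at hab
      rw [← Nat.mod_add_div a N, ← Nat.mod_add_div b N, ha', hb', hab]
    have hcard : (S.image (fun t => t / N)).card = S.card := Finset.card_image_of_injOn hinj
    rw [← hcard]
    refine hCount p q hpq _ ((x - std p q t0) / (p : ℝ) ^ d.n k) (l / (p : ℝ) ^ d.n k)
      (by positivity) (fun b hb => ?_)
    obtain ⟨t, ht, rfl⟩ := Finset.mem_image.1 hb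
    have ht' := Finset.mem_filter.1 ht
    have ht3 := Finset.mem_filter.1 ht'.1
    have hx := hT t ht3.1
    rw [ht3.2.2] at hx
    have hdec : std p q t = std p q t0 + p ^ d.n k * std p q (t / N) := by
      have h := hS (d.n k) t0 (t / N) ht0N
      rw [← h]
      congr 1
      have h5 := Nat.mod_add_div t N
      rw [ht'.2] at h5
      exact h5.symm
    rw [hdec] at hx
    push_cast at hx
    rw [div_le_iff₀ hP, ← add_div, le_div_iff₀ hP]
    constructor
    · linarith [hx.1]
    · linarith [hx.2]
  have h4 : (T.card : ℝ) ≤ T1.card + T3.card + T2.card := by exact_mod_cast hc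
  have h5 : (T1.card : ℝ) ≤ (q : ℝ) ^ d.n k := by
    have : (T1.card : ℝ) ≤ (N : ℝ) := by exact_mod_cast h1
    rw [hNdef] at this
    exact_mod_cast this
  linarith

end Pool.Agent.Q183.BD.TWindow
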