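import Pool.Agent.Q183.BD.Stmts

/-! The recursion for `E`. -/

set_option autoImplicit false

namespace Pool.Agent.Q183.BD.TaskE

open Pool.Agent.Q183.BD

/-- the values at level `k` -/
def Ek (p q : ℕ) (n : ℕ → ℕ) (g : ℕ → ℕ → ℕ) : ℕ → ℕ → ℕ
  | 0, _ => 0
  | k + 1, t => if t < q ^ n k then Ek p q n g k t else
      Ek p q n g k (t % q ^ n k) + p ^ n k * std p q (t / q ^ n k) + g k t

theorem main : Pool.Agent.Q183.BD.TaskE := by
  intro p q hq n hn0 hnS g
  have hmono : Monotone n := monotone_nat_of_le_succ fun k => by rw [hnS k]; omega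
  have hge : ∀ t, t ≤ n t := by
    intro t
    induction t with
    | zero => exact Nat.zero_le _
    | succ t ih => rw [hnS t]; omega
  have hlt : ∀ t, t < q ^ n t := fun t =>
    lt_of_le_of_lt (hge t) (Nat.lt_pow_self (by omega))
  have hst : ∀ k m t, k ≤ m → t < q ^ n k → Ek p q n g m t = Ek p q n g k t := by
    intro k m t hkm ht
    induction m, hkm using Nat.le_induction with
    | base => rfl
    | succ m hkm ih =>
      have h1 : t < q ^ n m := lt_of_lt_of_le ht (Nat.pow_le_pow_right (by omega) (hmono hkm))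
      rw [Ek, if_pos h1, ih]
  have hE : ∀ k t, t < q ^ n k → Ek p q n g t t = Ek p q n g k t := by
    intro k t ht
    rcases le_total k t with h | h
    · exact hst k t t h ht
    · exact (hst t k t h (hlt t)).symm
  refine ⟨fun t => Ek p q n g t t, rfl, ?_⟩
  intro k t b ht hb1 hb
  have hqpos : 0 < q ^ n k := Nat.pow_pos (by omega)
  have hx1 : t + q ^ n k * b < q ^ n (k + 1) := by
    rw [hnS k, show n k + q ^ n k + 6 = n k + (q ^ n k + 6) by ring, pow_add]
    calc t + q ^ n k * b < q ^ n k + q ^ n k * b := by omega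
      _ = q ^ n k * (b + 1) := by ring
      _ ≤ q ^ n k * q ^ (q ^ n k + 6) := Nat.mul_le_mul_left _ hb
  have hx2 : ¬ t + q ^ n k * b < q ^ n k := by
    have : q ^ n k * 1 ≤ q ^ n k * b := Nat.mul_le_mul_left _ hb1
    omega
  have hmod : (t + q ^ n k * b) % q ^ n k = t := by
    rw [Nat.add_mul_mod_self_left, Nat.mod_eq_of_lt ht]
  have hdiv : (t + q ^ n k * b) / q ^ n k = b := by
    rw [Nat.add_mul_div_left _ _ hqpos, Nat.div_eq_of_lt ht, zero_add]
  change Ek p q n g (t + q ^ n k * b) (t + q ^ n k * b) = Ek p q n g t t + _ + _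
  rw [hE (k + 1) _ hx1, Ek, if_neg hx2, hmod, hdiv, hE k t ht]

end Pool.Agent.Q183.BD.TaskE
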